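import Pool.Agent.Helper98.PS.Spec

set_option autoImplicit false

namespace Pool.Agent.Helper87.PS

open Pool.Agent.Helper98.PS
open Pool.Agent.Helper75.PM (LF PMin Kp cm)

theorem CHQ (socq : S_SOCQ) : S_CHQ := by
  intro p K _ T x hG hC Z _ hZT M hM hMT hne
  have hM' : (M.comap (QuotientGroup.mk' Z)).Normal := inferInstance
  have hmm : (M.comap (QuotientGroup.mk' Z)).map (QuotientGroup.mk' Z) = M :=
    Subgroup.map_comap_eq_self_of_surjective (QuotientGroup.mk'_surjective Z) M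
  have hT' : (T.map (QuotientGroup.mk' Z)).comap (QuotientGroup.mk' Z) = T := by
    rw [Subgroup.comap_map_eq, QuotientGroup.ker_mk', sup_eq_left.2 hZT]
  have h1 : M.comap (QuotientGroup.mk' Z) ≤ T := by
    rw [← hT']; exact Subgroup.comap_mono hMT
  have h2 : M.comap (QuotientGroup.mk' Z) ≠ T := by
    intro h
    apply hne
    rw [← hmm, h]
  have h3 := socq K (K ⧸ Z) (QuotientGroup.mk' Z) _ hG.lf (hC _ hM' h1 h2)
  have h4 : (cm (M.comap (QuotientGroup.mk' Z)) x).map (QuotientGroup.mk' Z) =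
      cm M (QuotientGroup.mk' Z x) := by
    unfold cm
    rw [MonoidHom.map_closure]
    congr 1
    ext g
    constructor
    · rintro ⟨_, ⟨n, hn, rfl⟩, rfl⟩
      exact ⟨QuotientGroup.mk' Z n, hn, by simp⟩
    · rintro ⟨n, hn, rfl⟩
      obtain ⟨m, rfl⟩ := QuotientGroup.mk'_surjective Z n
      exact ⟨m * x * m⁻¹ * x⁻¹, ⟨m, hn, rfl⟩, by simp⟩
  rw [← h4]
  exact h3

end Pool.Agent.Helper87.PS
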