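import Pool.Agent.Helper98.PS.Spec

set_option autoImplicit false

namespace Pool.Agent.Helper87.PS

open Pool.Agent.Helper98.PS
open Pool.Agent.Helper75.PM (LF PMin Kp cm)

theorem fin_gen {K : Type} [Group K] (S : Set K) (k : K) (hk : k ∈ Subgroup.closure S) :
    ∃ F : Set K, F.Finite ∧ F ⊆ S ∧ k ∈ Subgroup.closure F := by
  induction hk using Subgroup.closure_induction with
  | mem x hx => exact ⟨{x}, Set.finite_singleton x, by simpa using hx, Subgroup.subset_closure rfl⟩
  | one => exact ⟨∅, Set.finite_empty, Set.empty_subset _, one_mem _⟩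
  | mul x y _ _ hx hy =>
    obtain ⟨F, h1, h2, h3⟩ := hx
    obtain ⟨F', h1', h2', h3'⟩ := hy
    exact ⟨F ∪ F', h1.union h1', Set.union_subset h2 h2',
      mul_mem (Subgroup.closure_mono Set.subset_union_left h3)
        (Subgroup.closure_mono Set.subset_union_right h3')⟩
  | inv x _ hx =>
    obtain ⟨F, h1, h2, h3⟩ := hx
    exact ⟨F, h1, h2, inv_mem h3⟩

theorem fin_gen_set {K : Type} [Group K] (S X : Set K) (hX : X.Finite)
    (h : ∀ k ∈ X, k ∈ Subgroup.closure S) :
    ∃ F : Set K, F.Finite ∧ F ⊆ S ∧ X ⊆ Subgroup.closure F := by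
  induction X, hX using Set.Finite.induction_on with
  | empty => exact ⟨∅, Set.finite_empty, Set.empty_subset _, Set.empty_subset _⟩
  | @insert a X _ _ ih =>
    obtain ⟨F, h1, h2, h3⟩ := ih fun k hk => h k (Set.mem_insert_of_mem _ hk)
    obtain ⟨F', h1', h2', h3'⟩ := fin_gen S a (h a (Set.mem_insert _ _))
    refine ⟨F ∪ F', h1.union h1', Set.union_subset h2 h2', ?_⟩
    intro b hb
    rcases hb with rfl | hb
    · exact Subgroup.closure_mono Set.subset_union_right h3'
    · exact Subgroup.closure_mono Set.subset_union_left (h3 hb)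

theorem sol {p : ℕ} {K : Type} [Group K] {T : Subgroup K} {x : K} (hG : Gam p K T x)
    (H : Subgroup K) (hH : (H : Set K).Finite) : Group.IsSolvable H := by
  have : T.Normal := hG.nT
  have h1 : Group.IsSolvable (T ⊓ H : Subgroup K) :=
    hG.ls _ inf_le_left (hH.subset fun a ha => ha.2)
  -- quotient
  have hcomm : ∀ a b : K ⧸ T, a * b = b * a := by
    have key : ∀ a : K ⧸ T, ∃ j : ℤ, a = (QuotientGroup.mk x : K ⧸ T) ^ j := by
      intro a
      obtain ⟨g, rfl⟩ := QuotientGroup.mk_surjective a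
      have h2 : g ∈ T ⊔ Subgroup.zpowers x := by rw [hG.gen]; trivial
      rw [Subgroup.mem_sup_of_normal_left] at h2
      obtain ⟨t, ht, w, hw, rfl⟩ := h2
      obtain ⟨j, rfl⟩ := Subgroup.mem_zpowers_iff.1 hw
      refine ⟨j, ?_⟩
      rw [QuotientGroup.mk_mul, (QuotientGroup.eq_one_iff t).2 ht, one_mul, QuotientGroup.mk_zpow]
    intro a b
    obtain ⟨i, rfl⟩ := key a
    obtain ⟨j, rfl⟩ := key b
    rw [← zpow_add, ← zpow_add, add_comm]
  have h3 : Group.IsSolvable (K ⧸ T) := Group.isSolvable_of_comm hcomm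
  refine Group.isSolvable_of_ker_le_range (Subgroup.inclusion (inf_le_right : T ⊓ H ≤ H))
    ((QuotientGroup.mk' T).comp H.subtype) ?_
  intro a ha
  rw [MonoidHom.mem_ker] at ha
  have ha' : (a : K) ∈ T := (QuotientGroup.eq_one_iff (a : K)).1 ha
  exact ⟨⟨a, ha', a.2⟩, rfl⟩

theorem LOC (syl : S_SYL) : S_LOC := by
  intro p K _ T x hG X hX
  have hcl : ∀ k ∈ X, k ∈ Subgroup.closure {g : K | ∃ k : ℕ, g ^ (p ^ k) = 1} := by
    intro k _
    have := hG.kp
    unfold Kp at this
    rw [this]; trivial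
  obtain ⟨F, hF, hFS, hXF⟩ := fin_gen_set _ X hX hcl
  have hHfin : ((Subgroup.closure (F ∪ {x}) : Subgroup K) : Set K).Finite :=
    hG.lf _ (hF.union (Set.finite_singleton x))
  have hxH : x ∈ Subgroup.closure (F ∪ {x}) := Subgroup.subset_closure (Or.inr rfl)
  refine ⟨Subgroup.closure (F ∪ {x}), hHfin, ?_, hxH, sol hG _ hHfin, ?_⟩
  · exact fun k hk => Subgroup.closure_mono Set.subset_union_left (hXF hk)
  · intro L hxL hN
    rw [Subgroup.closure_le]
    rintro y (hy | hy)
    · have hyH : y ∈ Subgroup.closure (F ∪ {x}) := Subgroup.subset_closure (Or.inl hy)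
      obtain ⟨h, hh, j, rfl⟩ := syl p K T x hG.hp hG.lf hG.nT hG.pf hG.xp hG.gen
        (Subgroup.closure (F ∪ {x})) hHfin hxH y hyH (hFS hy)
      exact hN h hh _ (L.zpow_mem hxL j)
    · rw [Set.mem_singleton_iff.1 hy]; exact hxL

end Pool.Agent.Helper87.PS
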