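import Pool.Agent.Helper98.PS.Spec

set_option autoImplicit false

namespace Pool.Agent.Helper87.PS

open Pool.Agent.Helper98.PS
open Pool.Agent.Helper75.PM (LF PMin Kp cm)

theorem socq_ker {B : Type} [CommGroup B] [Finite B] (q : ℕ) :
    Nat.card (powMonoidHom q : B →* B).ker = ((powMonoidHom q : B →* B).range).index := by
  have h1 := Subgroup.card_mul_index (powMonoidHom q : B →* B).ker
  have h2 := Subgroup.card_mul_index (powMonoidHom q : B →* B).range
  rw [Subgroup.index_ker] at h1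
  have hpos : 0 < Nat.card (powMonoidHom q : B →* B).range := Nat.card_pos
  refine Nat.eq_of_mul_eq_mul_left hpos ?_
  rw [h2, ← h1, mul_comm]

theorem socq_le {A B : Type} [CommGroup A] [CommGroup B] [Finite A] (f : A →* B)
    (hf : Function.Surjective f) (q : ℕ) :
    Nat.card (powMonoidHom q : B →* B).ker ≤ Nat.card (powMonoidHom q : A →* A).ker := by
  have : Finite B := Finite.of_surjective f hf
  rw [socq_ker, socq_ker]
  have h1 : ((powMonoidHom q : A →* A).range).map f = (powMonoidHom q : B →* B).range := by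
    ext b
    constructor
    · rintro ⟨_, ⟨a, rfl⟩, rfl⟩
      exact ⟨f a, by simp⟩
    · rintro ⟨b, rfl⟩
      obtain ⟨a, rfl⟩ := hf b
      exact ⟨a ^ q, ⟨a, rfl⟩, by simp⟩
  rw [← h1]
  exact Nat.le_of_dvd (Nat.pos_of_ne_zero Subgroup.index_ne_zero_of_finite)
    (Subgroup.index_map_dvd _ hf)

/-- finitely many elements of exponent `q` in the image -/
theorem socq_q {G G' : Type} [Group G] [Group G'] (f : G →* G') (hlf : LF G) (A : Subgroup G)
    (hA : Abel A) (q : ℕ) (hq : {a | a ∈ A ∧ a ^ q = 1}.Finite) :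
    {b | b ∈ A.map f ∧ b ^ q = 1}.Finite := by
  classical
  by_contra hinf
  have hinf' : {b | b ∈ A.map f ∧ b ^ q = 1}.Infinite := hinf
  set m := Nat.card {a | a ∈ A ∧ a ^ q = 1} with hm
  obtain ⟨X, hX, hXc⟩ := hinf'.exists_subset_card_eq (m + 1)
  -- lifts
  have hl : ∀ b : G', ∃ a : G, b ∈ X → a ∈ A ∧ f a = b := by
    intro b
    by_cases hb : b ∈ X
    · obtain ⟨⟨a, ha, hab⟩, _⟩ := hX hb
      exact ⟨a, fun _ => ⟨ha, hab⟩⟩
    · exact ⟨1, fun h => absurd h hb⟩
  choose s hs using hl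
  set A1 : Subgroup G := Subgroup.closure (s '' (X : Set G')) with hA1
  have hfin : (A1 : Set G).Finite := hlf _ (X.finite_toSet.image s)
  have hle : A1 ≤ A := by
    rw [hA1, Subgroup.closure_le]
    rintro _ ⟨b, hb, rfl⟩
    exact (hs b hb).1
  have : Finite A1 := hfin.to_subtype
  let _ : CommGroup A1 := { (inferInstance : Group A1) with
    mul_comm := fun a b => Subtype.ext (hA a (hle a.2) b (hle b.2)) }
  let _ : CommGroup (A1.map f) := { (inferInstance : Group (A1.map f)) with
    mul_comm := by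
      rintro ⟨_, a, ha, rfl⟩ ⟨_, b, hb, rfl⟩
      apply Subtype.ext
      show f a * f b = f b * f a
      rw [← map_mul, ← map_mul, hA a (hle ha) b (hle hb)] }
  have h1 := socq_le (f.subgroupMap A1) (f.subgroupMap_surjective A1) q
  have h2 : Nat.card (powMonoidHom q : A1 →* A1).ker ≤ m := by
    rw [hm]
    have : Finite {a | a ∈ A ∧ a ^ q = 1} := hq.to_subtype
    refine Nat.card_le_card_of_injective (β := {a | a ∈ A ∧ a ^ q = 1})
      (fun a => ⟨((a : A1) : G), hle (a : A1).2, ?_⟩) ?_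
    · have := congrArg (Subtype.val) (MonoidHom.mem_ker.1 a.2)
      simpa using this
    · intro a b hab
      exact Subtype.ext (Subtype.ext (Subtype.mk.inj hab))
  have : Finite (A1.map f) := Finite.of_surjective _ (f.subgroupMap_surjective A1)
  have h3 : X.card ≤ Nat.card (powMonoidHom q : (A1.map f) →* (A1.map f)).ker := by
    rw [← Fintype.card_coe X, ← Nat.card_eq_fintype_card]
    refine Nat.card_le_card_of_injective (fun b : X => ⟨⟨b, ?_⟩, ?_⟩) ?_
    · exact ⟨s b, Subgroup.subset_closure ⟨b, b.2, rfl⟩, (hs b b.2).2⟩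
    · rw [MonoidHom.mem_ker]
      apply Subtype.ext
      have := (hX b.2).2
      simpa using this
    · intro a b hab
      exact Subtype.ext (congrArg (fun z => ((z : (A1.map f)) : G')) (Subtype.mk.inj hab))
  omega

theorem SOCQ : S_SOCQ := by
  intro G G' _ _ f E hlf hE
  obtain ⟨A, hAE, hidx, hA, hS⟩ := hE
  refine ⟨A.map f, Subgroup.map_mono hAE, ?_, ?_, ?_⟩
  · rw [Subgroup.relIndex_map_map]
    have h1 : (A ⊔ f.ker).relIndex (E ⊔ f.ker) ∣ A.relIndex E := by
      have h3 : (A ⊔ f.ker).relIndex (E ⊔ f.ker) = (A ⊔ f.ker).relIndex E := by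
        have h4 : (A ⊔ f.ker).relIndex (E ⊔ (A ⊔ f.ker)) = (A ⊔ f.ker).relIndex E := by
          rw [← Subgroup.comap_map_eq, Subgroup.relIndex_comap, Subgroup.relIndex_comap,
            Subgroup.map_sup, Subgroup.map_comap_eq]
          congr 1
          refine le_antisymm (sup_le le_rfl ?_) le_sup_left
          exact inf_le_right.trans (Subgroup.map_mono hAE)
        have h5 : E ⊔ (A ⊔ f.ker) = E ⊔ f.ker := by
          rw [← sup_assoc, sup_eq_left.2 hAE]
        rw [← h5, h4]
      rw [h3]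
      exact Subgroup.relIndex_dvd_of_le_left E le_sup_left
    intro h0
    rw [h0, zero_dvd_iff] at h1
    exact hidx h1
  · rintro _ ⟨a, ha, rfl⟩ _ ⟨b, hb, rfl⟩
    rw [← map_mul, ← map_mul, hA a ha b hb]
  · -- finitely many primes
    have hQ : {q : ℕ | ∃ a ∈ Soc A, orderOf a = q}.Finite := by
      have : {q : ℕ | ∃ a ∈ Soc A, orderOf a = q} = orderOf '' (Soc A) := by
        ext q; simp [Set.mem_image]
      rw [this]
      exact hS.image _
    have hfin : (⋃ q ∈ {q : ℕ | ∃ a ∈ Soc A, orderOf a = q},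
        {b | b ∈ A.map f ∧ b ^ q = 1} ∪ {1}).Finite := by
      refine hQ.biUnion ?_
      rintro q ⟨a, ⟨ha, r, hr, har⟩, rfl⟩
      refine Set.Finite.union ?_ (Set.finite_singleton 1)
      apply socq_q f hlf A hA
      have h1 : orderOf a = 1 ∨ orderOf a = r := (Nat.dvd_prime hr).1 (orderOf_dvd_of_pow_eq_one har)
      rcases h1 with h1 | h1
      · rw [h1]
        apply (Set.finite_singleton (1 : G)).subset
        rintro b ⟨_, hb⟩
        simpa using hb
      · rw [h1]
        exact hS.subset fun b hb => ⟨hb.1, r, hr, hb.2⟩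
    apply (hfin.union (Set.finite_singleton (1 : G'))).subset
    rintro b ⟨hb, q, hq, hbq⟩
    by_cases hb1 : b = 1
    · exact Or.inr hb1
    left
    obtain ⟨a, ha, rfl⟩ := hb
    have hdvd : q ∣ orderOf a := by
      by_contra hnd
      apply hb1
      have hc : Nat.Coprime q (orderOf a) := (Nat.Prime.coprime_iff_not_dvd hq).2 hnd
      have h2 : f a ^ (orderOf a) = 1 := by rw [← map_pow, pow_orderOf_eq_one, map_one]
      have h3 : orderOf (f a) ∣ Nat.gcd q (orderOf a) :=
        Nat.dvd_gcd (orderOf_dvd_of_pow_eq_one hbq) (orderOf_dvd_of_pow_eq_one h2)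
      rw [hc] at h3
      exact orderOf_eq_one_iff.1 (Nat.dvd_one.1 h3)
    obtain ⟨n, hn⟩ := hdvd
    have hfo : 0 < orderOf a := (Pool.Agent.Helper75.PM.tors hlf a).orderOf_pos
    have hn0 : n ≠ 0 := by
      rintro rfl
      rw [mul_zero] at hn
      omega
    have ho : orderOf (a ^ n) = q := by
      rw [orderOf_pow_of_dvd hn0 ⟨q, by rw [hn, mul_comm]⟩, hn, Nat.mul_div_cancel _ (Nat.pos_of_ne_zero hn0)]
    refine Set.mem_biUnion (x := q) ⟨a ^ n, ⟨A.pow_mem ha n, q, hq, ?_⟩, ho⟩ ?_
    · rw [← ho]; exact pow_orderOf_eq_one _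
    · exact Or.inl ⟨⟨a, ha, rfl⟩, hbq⟩

end Pool.Agent.Helper87.PS
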