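import Pool.Agent.Helper98.PS.Spec

set_option autoImplicit false

namespace Pool.Agent.Helper87.PS

open Pool.Agent.Helper98.PS
open Pool.Agent.Helper75.PM (LF PMin Kp cm)

theorem SYL : S_SYL := by
  intro p K _ T x hp hlf hT hPF hx hgen H hfin hxH y hyH hy
  have : Fact p.Prime := ⟨hp⟩
  have : Finite H := hfin.to_subtype
  -- N = T ∩ H
  set N : Subgroup H := T.subgroupOf H with hN
  have : N.Normal := by
    rw [hN]; infer_instance
  have hNmem : ∀ h : H, h ∈ N ↔ (h : K) ∈ T := fun h => Subgroup.mem_subgroupOf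
  have hcop : ¬ p ∣ Nat.card N := by
    intro hd
    have : Finite N := inferInstance
    obtain ⟨a, ha⟩ := exists_prime_orderOf_dvd_card' p hd
    have h1 : ((a : H) : K) ^ (p ^ 1) = 1 := by
      have : a ^ p = 1 := by rw [← ha]; exact pow_orderOf_eq_one a
      have h2 : (((a ^ p : N) : H) : K) = 1 := by rw [this]; rfl
      simpa using h2
    have h3 := hPF _ ((hNmem a).1 a.2) 1 h1
    have h4 : a = 1 := Subtype.ext (Subtype.ext h3)
    rw [h4, orderOf_one] at ha
    exact hp.one_lt.ne ha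
  set x' : H := ⟨x, hxH⟩ with hx'
  set P : Subgroup H := Subgroup.zpowers x' with hP
  have hpgrp : ∀ z : H, Pel p (z : K) → IsPGroup p (Subgroup.zpowers z) := by
    rintro z ⟨k, hk⟩ w
    obtain ⟨w, hw⟩ := w
    obtain ⟨j, rfl⟩ := Subgroup.mem_zpowers_iff.1 hw
    refine ⟨k, ?_⟩
    apply Subtype.ext
    have hz : z ^ (p ^ k) = 1 := Subtype.ext (by simpa using hk)
    show (z ^ j) ^ (p ^ k) = 1
    rw [← zpow_natCast, ← zpow_mul, mul_comm, zpow_mul, zpow_natCast, hz, one_zpow]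
  have hPp : IsPGroup p P := hpgrp x' hx
  have hsup : N ⊔ P = ⊤ := by
    rw [eq_top_iff]
    rintro h -
    have h1 : (h : K) ∈ T ⊔ Subgroup.zpowers x := by rw [hgen]; trivial
    rw [Subgroup.mem_sup_of_normal_left] at h1
    obtain ⟨t, ht, w, hw, htw⟩ := h1
    obtain ⟨j, rfl⟩ := Subgroup.mem_zpowers_iff.1 hw
    have h2 : t = (h * (x' ^ j)⁻¹ : H) := by
      simp [hx', ← htw]
    rw [Subgroup.mem_sup_of_normal_left]
    refine ⟨h * (x' ^ j)⁻¹, (hNmem _).2 (h2 ▸ ht), x' ^ j, ⟨j, rfl⟩, by group⟩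
  have hidx : ¬ p ∣ P.index := by
    intro hd
    have h1 : P.index ∣ Nat.card N := by
      have h2 : N.relIndex P = N.index := by
        rw [← Subgroup.relIndex_top_right N, ← hsup, sup_comm, Subgroup.relIndex_sup_right]
      have h3 : Nat.card P * P.index = Nat.card N * N.index := by
        rw [Subgroup.card_mul_index, Subgroup.card_mul_index]
      obtain ⟨c, hc⟩ : N.relIndex P ∣ Nat.card P := Subgroup.relIndex_dvd_card N P
      have hpos : 0 < N.index := Nat.pos_of_ne_zero Subgroup.index_ne_zero_of_finite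
      refine ⟨c, ?_⟩
      have h4 : N.index * (P.index * c) = N.index * Nat.card N := by
        rw [hc, h2] at h3
        linarith
      exact (Nat.eq_of_mul_eq_mul_left hpos h4).symm
    exact hcop (hd.trans h1)
  obtain ⟨Q, hQ⟩ := (hpgrp ⟨y, hyH⟩ hy).exists_le_sylow
  obtain ⟨g, hg⟩ := MulAction.exists_smul_eq H (hPp.toSylow hidx) Q
  have hyQ : (⟨y, hyH⟩ : H) ∈ Q := hQ (Subgroup.mem_zpowers _)
  rw [← hg] at hyQ
  rw [← SetLike.mem_coe, Sylow.coe_smul] at hyQ
  obtain ⟨w, hw, hwy⟩ := hyQ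
  have hw' : w ∈ P := hw
  obtain ⟨j, hj⟩ := Subgroup.mem_zpowers_iff.1 hw'
  refine ⟨g, g.2, j, ?_⟩
  have := congrArg (Subtype.val) hwy
  simp only [← hj] at this
  rw [← this]
  simp [MulAut.smul_def, MulAut.conj_apply, hx']

end Pool.Agent.Helper87.PS
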